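import Pool.Agent.Ins56.Shadow

set_option autoImplicit false

namespace Pool.Agent.Results.MP_ce3260_gt.CylinderCounterexample

open MeasureTheory ProbabilityTheory Real
open scoped RealInnerProductSpace

/-- `n`-dimensional Euclidean space. -/
abbrev E (n : ℕ) := EuclideanSpace ℝ (Fin n)

/-- `κ_m`, the volume of the unit ball of `m`-dimensional Euclidean space. -/
noncomputable def kappa (m : ℕ) : ℝ := (volume (Metric.closedBall (0 : E m) 1)).toReal

/-- For an orthonormal `k`-frame `b` in `n`-space, the `k`-dimensional volume of the orthogonal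
projection of `K` onto the span of `b` (written in the coordinates given by `b`). -/
noncomputable def shadow {n k : ℕ} (b : Fin k → E n) (K : Set (E n)) : ℝ :=
  (volume {y : E k | ∃ x ∈ K, ∀ i, y i = ⟪b i, x⟫}).toReal

/-- The mean value of `f` over random orthonormal `k`-frames in `n`-space: the frame is obtained
from `k` independent standard Gaussian vectors by the Gram-Schmidt process. Its distribution is
rotation invariant, so for an `f` that depends only on the span of the frame this is the mean over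
the Grassmannian. -/
noncomputable def frameMean (n k : ℕ) (f : (Fin k → E n) → ℝ) : ℝ :=
  ∫ a : Fin k → E n, f (InnerProductSpace.gramSchmidtNormed ℝ a)
    ∂(Measure.pi fun _ : Fin k => stdGaussian (E n))

/-- The affine quermassintegral `Φ_i(K)` of `K` in `n`-space. -/
noncomputable def Phi (n i : ℕ) (K : Set (E n)) : ℝ :=
  kappa n / kappa (n - i) *
    frameMean n (n - i) (fun b => shadow b K ^ (-(n : ℝ))) ^ (-(1 : ℝ) / n)

/-- The cylinder `[-1,1] × B` in `100`-space, `B` the unit ball of `99`-space. -/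
def cylinder : Set (E 100) := {x | |x 0| ≤ 1 ∧ ∑ i : Fin 99, x i.succ ^ 2 ≤ 1}

theorem result :
    IsCompact cylinder ∧ Convex ℝ cylinder ∧ (interior cylinder).Nonempty ∧
      kappa 100 ^ 98 * Phi 100 99 cylinder ^ (100 - 98) <
        kappa 100 ^ 99 * Phi 100 98 cylinder ^ (100 - 99) := by
  have he : ‖(EuclideanSpace.single 0 1 : E 100)‖ = 1 := by
    rw [EuclideanSpace.norm_single, norm_one]
  set e : E 100 := EuclideanSpace.single 0 1 with he_def
  have hin : ∀ x : E 100, ⟪e, x⟫ = x 0 := by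
    intro x
    rw [he_def, EuclideanSpace.inner_single_left]
    simp
  have hcyl : cylinder = Pool.Agent.H43.Gauss.Cyl e := by
    ext x
    have hx : ‖x‖ ^ 2 = x 0 ^ 2 + ∑ i : Fin 99, x i.succ ^ 2 := by
      rw [EuclideanSpace.norm_sq_eq, Fin.sum_univ_succ]
      simp only [Real.norm_eq_abs, sq_abs]
    change (|x 0| ≤ 1 ∧ ∑ i : Fin 99, x i.succ ^ 2 ≤ 1) ↔
      (|⟪e, x⟫| ≤ 1 ∧ ‖x‖ ^ 2 - ⟪e, x⟫ ^ 2 ≤ 1)
    rw [hin, hx]
    have : x 0 ^ 2 + ∑ i : Fin 99, x i.succ ^ 2 - x 0 ^ 2 = ∑ i : Fin 99, x i.succ ^ 2 := by ring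
    rw [this]
  have hkap : ∀ m, kappa m = Pool.Agent.H43.Gauss.kap m := fun m => Pool.Agent.Ins56.kappa_eq m
  have hPhi : ∀ k, frameMean 100 k (fun b => shadow b cylinder ^ (-((100 : ℕ) : ℝ))) =
      ∫ A, Pool.Agent.H43.Gauss.FF k (Pool.Agent.H43.Gauss.KK e) A
        ∂(Measure.pi (fun _ : Fin k => Pool.Agent.H43.Gauss.γ0 100)) := by
    intro k
    have h := Pool.Agent.Ins56.int_eq (n := 100) k (Pool.Agent.H43.Gauss.Cyl e)
    rw [← hcyl] at h
    refine Eq.trans ?_ (h.symm.trans ?_)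
    · rfl
    · rw [hcyl]
      rfl
  refine ⟨?_, ?_, ?_, ?_⟩
  · rw [hcyl]; exact Pool.Agent.H43.Gauss.isCompact_Cyl he
  · rw [hcyl]; exact Pool.Agent.H43.Gauss.convex_Cyl he
  · rw [hcyl]
    refine ⟨0, mem_interior.2 ⟨Metric.ball (0 : E 100) 1, ?_, Metric.isOpen_ball, ?_⟩⟩
    · exact Pool.Agent.H43.Gauss.ball_subset_Cyl he
    · simp
  · have h := Pool.Agent.H43.Gauss.key_ineq he
    unfold Phi
    rw [hkap, hPhi, hPhi, hkap, hkap]
    exact h

end Pool.Agent.Results.MP_ce3260_gt.CylinderCounterexample
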